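import Pool.Agent.H697.Exp.Mix

/-!
# Rounding a fractional labelling of clouds
-/

namespace Pool.Agent.H697.Red

open Finset Pool.Agent.H697.Exp

variable {P : Type} [Fintype P] {q : ℕ}

theorem round1 (hq : 0 < q) (key : P → ℕ) (c : P → Fin q → ℝ) (μ : ℕ → Fin q → ℝ)
    (hμ : ∀ u a, 0 ≤ μ u a) (hμ1 : ∀ u, ∑ a, μ u a = 1) :
    ∃ L : ℕ → Fin q, ∑ p, ∑ a, μ (key p) a * c p a ≤ ∑ p, c p (L (key p)) := by
  classical
  have hne : (univ : Finset (Fin q)).Nonempty := ⟨⟨0, hq⟩, mem_univ _⟩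
  have h1 : ∀ u : ℕ, ∃ a : Fin q, ∀ a' : Fin q,
      ∑ p ∈ univ.filter (fun p => key p = u), c p a' ≤
        ∑ p ∈ univ.filter (fun p => key p = u), c p a := by
    intro u
    obtain ⟨a, _, ha⟩ := exists_max_image univ
      (fun a : Fin q => ∑ p ∈ univ.filter (fun p => key p = u), c p a) hne
    exact ⟨a, fun a' => ha a' (mem_univ _)⟩
  choose L hL using h1
  refine ⟨L, ?_⟩
  have h2 : ∀ p ∈ (univ : Finset P), key p ∈ univ.image key := fun p hp => mem_image_of_mem _ hp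
  rw [← sum_fiberwise_of_maps_to h2, ← sum_fiberwise_of_maps_to h2 (fun p => c p (L (key p)))]
  refine sum_le_sum fun u _ => ?_
  have h3 : ∑ p ∈ univ.filter (fun p => key p = u), ∑ a, μ (key p) a * c p a =
      ∑ a, μ u a * ∑ p ∈ univ.filter (fun p => key p = u), c p a := by
    rw [sum_comm]
    refine sum_congr rfl fun a _ => ?_
    rw [mul_sum]
    refine sum_congr rfl fun p hp => ?_
    rw [(mem_filter.1 hp).2]
  have h4 : ∑ p ∈ univ.filter (fun p => key p = u), c p (L (key p)) =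
      ∑ p ∈ univ.filter (fun p => key p = u), c p (L u) :=
    sum_congr rfl fun p hp => by rw [(mem_filter.1 hp).2]
  rw [h3, h4]
  calc ∑ a, μ u a * ∑ p ∈ univ.filter (fun p => key p = u), c p a
      ≤ ∑ a, μ u a * ∑ p ∈ univ.filter (fun p => key p = u), c p (L u) :=
        sum_le_sum fun a _ => mul_le_mul_of_nonneg_left (hL u a) (hμ u a)
    _ = _ := by rw [← sum_mul, hμ1, one_mul]

theorem round2 (hq : 0 < q) (lk rk : P → ℕ) (R : P → Fin q → Fin q → ℝ)
    (μ ν : ℕ → Fin q → ℝ) (hμ : ∀ u a, 0 ≤ μ u a) (hμ1 : ∀ u, ∑ a, μ u a = 1)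
    (hν : ∀ u a, 0 ≤ ν u a) (hν1 : ∀ u, ∑ a, ν u a = 1) :
    ∃ L M : ℕ → Fin q, ∑ p, ∑ a, ∑ a', R p a a' * μ (lk p) a * ν (rk p) a' ≤
      ∑ p, R p (L (lk p)) (M (rk p)) := by
  obtain ⟨M, hM⟩ := round1 hq rk (fun p a' => ∑ a, R p a a' * μ (lk p) a) ν hν hν1
  obtain ⟨L, hL⟩ := round1 hq lk (fun p a => R p a (M (rk p))) μ hμ hμ1
  refine ⟨L, M, ?_⟩
  refine le_trans (le_of_eq ?_) (hM.trans (le_trans (le_of_eq ?_) hL))
  · refine sum_congr rfl fun p _ => ?_
    rw [sum_comm]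
    refine sum_congr rfl fun a' _ => ?_
    rw [mul_sum]
    exact sum_congr rfl fun a _ => by ring
  · refine sum_congr rfl fun p _ => ?_
    exact sum_congr rfl fun a _ => by ring

theorem pointwise (R : Fin q → Fin q → ℝ) (hR : ∀ a a', 0 ≤ R a a') (hR1 : ∀ a a', R a a' ≤ 1)
    (hRs : ∀ a, ∑ a', R a a' ≤ 1) (F F' μ ν : Fin q → ℝ) (hF' : ∀ a, 0 ≤ F' a)
    (hF'1 : ∀ a, F' a ≤ 1) (hμ : ∀ a, 0 ≤ μ a) (hμ1 : ∑ a, μ a = 1) :
    ∑ a, ∑ a', R a a' * F a * F' a' ≤ ∑ a, ∑ a', R a a' * μ a * ν a' +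
      (∑ a, |F a - μ a| + ∑ a', |F' a' - ν a'|) := by
  have h1 : ∑ a, ∑ a', R a a' * F a * F' a' = ∑ a, ∑ a', R a a' * μ a * ν a' +
      (∑ a, ∑ a', R a a' * (F a - μ a) * F' a' + ∑ a, ∑ a', R a a' * μ a * (F' a' - ν a')) := by
    rw [← sum_add_distrib, ← sum_add_distrib]
    refine sum_congr rfl fun a _ => ?_
    rw [← sum_add_distrib, ← sum_add_distrib]
    exact sum_congr rfl fun a' _ => by ring
  rw [h1]
  refine add_le_add_right (add_le_add ?_ ?_) _
  · refine sum_le_sum fun a _ => ?_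
    calc ∑ a', R a a' * (F a - μ a) * F' a' ≤ ∑ a', R a a' * |F a - μ a| := by
          refine sum_le_sum fun a' _ => ?_
          have h2 : (F a - μ a) * F' a' ≤ |F a - μ a| := by
            calc (F a - μ a) * F' a' ≤ |F a - μ a| * F' a' :=
                  mul_le_mul_of_nonneg_right (le_abs_self _) (hF' a')
              _ ≤ |F a - μ a| * 1 := mul_le_mul_of_nonneg_left (hF'1 a') (abs_nonneg _)
              _ = _ := mul_one _
          have := mul_le_mul_of_nonneg_left h2 (hR a a')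
          linarith
      _ = (∑ a', R a a') * |F a - μ a| := by rw [sum_mul]
      _ ≤ 1 * |F a - μ a| := mul_le_mul_of_nonneg_right (hRs a) (abs_nonneg _)
      _ = _ := one_mul _
  · rw [sum_comm]
    refine sum_le_sum fun a' _ => ?_
    calc ∑ a, R a a' * μ a * (F' a' - ν a') ≤ ∑ a, μ a * |F' a' - ν a'| := by
          refine sum_le_sum fun a _ => ?_
          have h2 : R a a' * (F' a' - ν a') ≤ |F' a' - ν a'| := by
            calc R a a' * (F' a' - ν a') ≤ R a a' * |F' a' - ν a'| :=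
                  mul_le_mul_of_nonneg_left (le_abs_self _) (hR a a')
              _ ≤ 1 * |F' a' - ν a'| := mul_le_mul_of_nonneg_right (hR1 a a') (abs_nonneg _)
              _ = _ := one_mul _
          have := mul_le_mul_of_nonneg_left h2 (hμ a)
          linarith
      _ = (∑ a, μ a) * |F' a' - ν a'| := by rw [sum_mul]
      _ = _ := by rw [hμ1, one_mul]

/-- The position of the slot number `j` in the cloud of side `m`. -/
def pos (m j : ℕ) : ZMod m × ZMod m := ((j / m : ℕ), (j % m : ℕ))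

theorem pos_inj {m j j' : ℕ} (hj : j < m * m) (hj' : j' < m * m) (h : pos m j = pos m j') :
    j = j' := by
  have hm : 0 < m := by
    rcases Nat.eq_zero_or_pos m with rfl | h'
    · simp at hj
    · exact h'
  have h1 := congrArg (fun z : ZMod m × ZMod m => z.1.val) h
  have h2 := congrArg (fun z : ZMod m × ZMod m => z.2.val) h
  simp only [pos] at h1 h2
  rw [ZMod.val_natCast, ZMod.val_natCast, Nat.mod_eq_of_lt (Nat.div_lt_of_lt_mul hj),
    Nat.mod_eq_of_lt (Nat.div_lt_of_lt_mul hj')] at h1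
  rw [ZMod.val_natCast, ZMod.val_natCast, Nat.mod_mod, Nat.mod_mod] at h2
  rw [← Nat.div_add_mod j m, ← Nat.div_add_mod j' m, h1, h2]

/-- Slots: the number of the slot `i` of the edge `p` in the cloud of its end `key p`. -/
structure Slots (P : Type) (b : ℕ) (key : P → ℕ) (m : ℕ → ℕ) (j : P → ℕ → ℕ) : Prop where
  lt : ∀ p, ∀ i < b, j p i < m (key p) * m (key p)
  inj : ∀ p p' i i', key p = key p' → i < b → i' < b → j p i = j p' i' → p = p' ∧ i = i'

theorem Slots.sum_le {b : ℕ} {key : P → ℕ} {m : ℕ → ℕ} {j : P → ℕ → ℕ}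
    (hS : Slots P b key m j) [∀ u, NeZero (m u)] (h : (u : ℕ) → ZMod (m u) × ZMod (m u) → ℝ)
    (hh : ∀ u z, 0 ≤ h u z) [DecidableEq P] :
    ∑ p, ∑ i ∈ range b, h (key p) (pos (m (key p)) (j p i)) ≤
      ∑ u ∈ univ.image key, ∑ z, h u z := by
  classical
  have h2 : ∀ p ∈ (univ : Finset P), key p ∈ univ.image key := fun p hp => mem_image_of_mem _ hp
  rw [← sum_fiberwise_of_maps_to h2]
  refine sum_le_sum fun u _ => ?_
  have h3 : ∑ p ∈ univ.filter (fun p => key p = u),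
      ∑ i ∈ range b, h (key p) (pos (m (key p)) (j p i)) =
      ∑ p ∈ univ.filter (fun p => key p = u), ∑ i ∈ range b, h u (pos (m u) (j p i)) := by
    refine sum_congr rfl fun p hp => ?_
    obtain rfl := (mem_filter.1 hp).2
    rfl
  rw [h3, ← sum_product']
  have h4 : ∑ x ∈ (univ.filter fun p => key p = u) ×ˢ range b, h u (pos (m u) (j x.1 x.2)) =
      ∑ z ∈ ((univ.filter fun p => key p = u) ×ˢ range b).image
        (fun x => pos (m u) (j x.1 x.2)), h u z := by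
    rw [sum_image]
    intro x hx x' hx' heq
    rw [mem_coe, mem_product, mem_filter, mem_range] at hx hx'
    obtain ⟨⟨_, hx1⟩, hx2⟩ := hx
    obtain ⟨⟨_, hx1'⟩, hx2'⟩ := hx'
    have h5 := hS.lt x.1 x.2 hx2
    have h6 := hS.lt x'.1 x'.2 hx2'
    rw [hx1] at h5
    rw [hx1'] at h6
    have h7 := hS.inj x.1 x'.1 x.2 x'.2 (hx1.trans hx1'.symm) hx2 hx2' (pos_inj h5 h6 heq)
    exact Prod.ext h7.1 h7.2
  rw [h4]
  exact sum_le_univ_sum_of_nonneg fun z => hh u z

theorem abs_le_amgm {ρ : ℝ} (hρ : 0 < ρ) (y : ℝ) : |y| ≤ (ρ + y ^ 2 / ρ) / 2 := by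
  have h1 : y ^ 2 / ρ = (|y| / ρ) * |y| := by
    rw [← sq_abs]; field_simp
  have h2 : (ρ + y ^ 2 / ρ) / 2 - |y| = (ρ - |y|) ^ 2 / (2 * ρ) := by
    rw [← sq_abs y]
    field_simp
    ring
  have h3 : 0 ≤ (ρ - |y|) ^ 2 / (2 * ρ) := by positivity
  linarith

/-- The total deviation of the averages from the means. -/
theorem dev_le {b : ℕ} {key : P → ℕ} {m : ℕ → ℕ} {j : P → ℕ → ℕ}
    (hS : Slots P b key m j) [∀ u, NeZero (m u)] [DecidableEq P]
    (f : (u : ℕ) → Fin q → ZMod (m u) × ZMod (m u) → ℝ) (hf : ∀ u a z, 0 ≤ f u a z)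
    (hf1 : ∀ u z, ∑ a, f u a z = 1) (t : ℕ)
    (hm : ∑ u ∈ univ.image key, ((m u : ℝ)) ^ 2 ≤ 2 * (b * Fintype.card P)) :
    ∑ p, ∑ i ∈ range b, ∑ a, |avg t (f (key p) a) (pos (m (key p)) (j p i)) -
      mean (f (key p) a)| ≤ (73 / 80) ^ t * (b * Fintype.card P) * ((q + 2) / 2) := by
  set ρ : ℝ := (73 / 80) ^ t with hρ
  have hρ0 : 0 < ρ := by positivity
  have h1 : ∑ p, ∑ i ∈ range b, ∑ a, |avg t (f (key p) a) (pos (m (key p)) (j p i)) -
      mean (f (key p) a)| ≤ ∑ p, ∑ i ∈ range b, ∑ a, (ρ / 2 +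
        (avg t (f (key p) a) (pos (m (key p)) (j p i)) - mean (f (key p) a)) ^ 2 / (2 * ρ)) := by
    refine sum_le_sum fun p _ => sum_le_sum fun i _ => sum_le_sum fun a _ => ?_
    refine (abs_le_amgm hρ0 _).trans (le_of_eq ?_)
    field_simp
  refine h1.trans ?_
  have h2 : ∑ p, ∑ i ∈ range b, ∑ a, (ρ / 2 +
        (avg t (f (key p) a) (pos (m (key p)) (j p i)) - mean (f (key p) a)) ^ 2 / (2 * ρ)) =
      ρ / 2 * (q * (b * Fintype.card P)) + (∑ p, ∑ i ∈ range b, ∑ a,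
        (avg t (f (key p) a) (pos (m (key p)) (j p i)) - mean (f (key p) a)) ^ 2) / (2 * ρ) := by
    simp only [sum_add_distrib, sum_const, card_univ, Fintype.card_fin, card_range, nsmul_eq_mul,
      ← sum_div]
    ring
  rw [h2]
  have h3 := hS.sum_le (fun u z => ∑ a, (avg t (f u a) z - mean (f u a)) ^ 2)
    (fun u z => sum_nonneg fun a _ => sq_nonneg _)
  have h4 : ∑ u ∈ univ.image key, ∑ z, ∑ a, (avg t (f u a) z - mean (f u a)) ^ 2 ≤
      ∑ u ∈ univ.image key, ρ ^ 2 * (m u : ℝ) ^ 2 := by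
    refine sum_le_sum fun u _ => ?_
    rw [sum_comm]
    calc ∑ a, ∑ z, (avg t (f u a) z - mean (f u a)) ^ 2
        ≤ ∑ a, ρ ^ 2 * ∑ z, f u a z ^ 2 := sum_le_sum fun a _ => avg_mix (f u a) t
      _ = ρ ^ 2 * ∑ z, ∑ a, f u a z ^ 2 := by rw [← mul_sum, sum_comm]
      _ ≤ ρ ^ 2 * ∑ _z : ZMod (m u) × ZMod (m u), (1 : ℝ) := by
          refine mul_le_mul_of_nonneg_left (sum_le_sum fun z _ => ?_) (by positivity)
          rw [← hf1 u z]
          refine sum_le_sum fun a _ => ?_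
          have h5 : f u a z ≤ 1 := by
            rw [← hf1 u z]
            exact single_le_sum (f := fun a => f u a z) (fun a _ => hf u a z) (mem_univ a)
          nlinarith [hf u a z]
      _ = ρ ^ 2 * (m u : ℝ) ^ 2 := by
          rw [sum_const, card_univ, Fintype.card_prod, ZMod.card, nsmul_eq_mul]
          push_cast
          ring
  have h5 : ∑ u ∈ univ.image key, ρ ^ 2 * (m u : ℝ) ^ 2 ≤ ρ ^ 2 * (2 * (b * Fintype.card P)) := by
    rw [← mul_sum]
    exact mul_le_mul_of_nonneg_left hm (by positivity)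
  have h6 := h3.trans (h4.trans h5)
  have h7 : (∑ p, ∑ i ∈ range b, ∑ a,
        (avg t (f (key p) a) (pos (m (key p)) (j p i)) - mean (f (key p) a)) ^ 2) / (2 * ρ) ≤
      ρ ^ 2 * (2 * (b * Fintype.card P)) / (2 * ρ) :=
    div_le_div_of_nonneg_right h6 (by positivity)
  have h8 : ρ ^ 2 * (2 * (b * Fintype.card P)) / (2 * ρ) = ρ * (b * Fintype.card P) := by
    field_simp
  rw [h8] at h7
  linarith

theorem avg_nonneg {n : ℕ} [NeZero n] {f : ZMod n × ZMod n → ℝ} (hf : ∀ z, 0 ≤ f z) (t : ℕ) (z) :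
    0 ≤ avg t f z := by
  unfold avg
  exact div_nonneg (sum_nonneg fun w _ => hf _) (by positivity)

theorem mean_nonneg {n : ℕ} [NeZero n] {f : ZMod n × ZMod n → ℝ} (hf : ∀ z, 0 ≤ f z) :
    0 ≤ mean f := by
  unfold mean
  exact div_nonneg (sum_nonneg fun w _ => hf _) (by positivity)

theorem sum_avg_one {n : ℕ} [NeZero n] {f : Fin q → ZMod n × ZMod n → ℝ}
    (hf : ∀ z, ∑ a, f a z = 1) (t : ℕ) (z) : ∑ a, avg t (f a) z = 1 := by
  unfold avg
  rw [← sum_div, sum_comm]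
  simp only [hf, sum_const, card_univ, Fintype.card_fun, Fintype.card_fin, nsmul_eq_mul, mul_one]
  push_cast
  exact div_self (by positivity)

theorem sum_mean_one {n : ℕ} [NeZero n] {f : Fin q → ZMod n × ZMod n → ℝ}
    (hf : ∀ z, ∑ a, f a z = 1) : ∑ a, mean (f a) = 1 := by
  have hn : (n : ℝ) ≠ 0 := by exact_mod_cast NeZero.ne n
  unfold mean
  rw [← sum_div, sum_comm]
  simp only [hf, sum_const, card_univ, Fintype.card_prod, ZMod.card, nsmul_eq_mul, mul_one]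
  push_cast
  field_simp

/-- The value of the averaged fractional labelling is at most the value of the game, up to a small
error. -/
theorem core (hq : 0 < q) [DecidableEq P] (lk rk : P → ℕ) (R : P → Fin q → Fin q → ℝ)
    (hR : ∀ p a a', 0 ≤ R p a a') (hR1 : ∀ p a a', R p a a' ≤ 1)
    (hRs : ∀ p a, ∑ a', R p a a' ≤ 1)
    {b : ℕ} {m m' : ℕ → ℕ} [∀ u, NeZero (m u)] [∀ u, NeZero (m' u)] {j j' : P → ℕ → ℕ}
    (hS : Slots P b lk m j) (hS' : Slots P b rk m' j')
    (hm : ∑ u ∈ univ.image lk, ((m u : ℝ)) ^ 2 ≤ 2 * (b * Fintype.card P))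
    (hm' : ∑ u ∈ univ.image rk, ((m' u : ℝ)) ^ 2 ≤ 2 * (b * Fintype.card P))
    (f : (u : ℕ) → Fin q → ZMod (m u) × ZMod (m u) → ℝ) (hf : ∀ u a z, 0 ≤ f u a z)
    (hf1 : ∀ u z, ∑ a, f u a z = 1)
    (f' : (u : ℕ) → Fin q → ZMod (m' u) × ZMod (m' u) → ℝ) (hf' : ∀ u a z, 0 ≤ f' u a z)
    (hf'1 : ∀ u z, ∑ a, f' u a z = 1) (t : ℕ) {V : ℝ}
    (hV : ∀ L M : ℕ → Fin q, ∑ p, R p (L (lk p)) (M (rk p)) ≤ V) :
    ∑ p, ∑ i ∈ range b, ∑ a, ∑ a', R p a a' * avg t (f (lk p) a) (pos (m (lk p)) (j p i)) *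
      avg t (f' (rk p) a') (pos (m' (rk p)) (j' p i)) ≤
      b * V + (73 / 80) ^ t * (b * Fintype.card P) * (q + 2) := by
  have h1 : ∀ p ∈ (univ : Finset P), ∀ i ∈ range b, ∑ a, ∑ a', R p a a' *
      avg t (f (lk p) a) (pos (m (lk p)) (j p i)) *
      avg t (f' (rk p) a') (pos (m' (rk p)) (j' p i)) ≤
      ∑ a, ∑ a', R p a a' * mean (f (lk p) a) * mean (f' (rk p) a') +
      (∑ a, |avg t (f (lk p) a) (pos (m (lk p)) (j p i)) - mean (f (lk p) a)| +
       ∑ a', |avg t (f' (rk p) a') (pos (m' (rk p)) (j' p i)) - mean (f' (rk p) a')|) := by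
    intro p _ i _
    have hs := sum_avg_one (hf'1 (rk p)) t (pos (m' (rk p)) (j' p i))
    exact pointwise (R p) (hR p) (hR1 p) (hRs p)
      (fun a => avg t (f (lk p) a) (pos (m (lk p)) (j p i)))
      (fun a' => avg t (f' (rk p) a') (pos (m' (rk p)) (j' p i)))
      (fun a => mean (f (lk p) a)) (fun a' => mean (f' (rk p) a'))
      (fun a => avg_nonneg (hf' (rk p) a) t _)
      (fun a => by
        rw [← hs]
        exact single_le_sum (f := fun a' => avg t (f' (rk p) a') (pos (m' (rk p)) (j' p i)))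
          (fun a' _ => avg_nonneg (hf' (rk p) a') t _) (mem_univ a))
      (fun a => mean_nonneg (hf (lk p) a)) (sum_mean_one (hf1 (lk p)))
  refine (sum_le_sum fun p hp => sum_le_sum fun i hi => h1 p hp i hi).trans ?_
  simp only [sum_add_distrib]
  obtain ⟨L, M, hLM⟩ := round2 hq lk rk R (fun u a => mean (f u a)) (fun u a => mean (f' u a))
    (fun u a => mean_nonneg (hf u a)) (fun u => sum_mean_one (hf1 u))
    (fun u a => mean_nonneg (hf' u a)) (fun u => sum_mean_one (hf'1 u))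
  have h2 : ∑ p, ∑ _i ∈ range b, ∑ a, ∑ a', R p a a' * mean (f (lk p) a) * mean (f' (rk p) a') ≤
      b * V := by
    have : ∑ p, ∑ _i ∈ range b, ∑ a, ∑ a', R p a a' * mean (f (lk p) a) * mean (f' (rk p) a') =
        b * ∑ p, ∑ a, ∑ a', R p a a' * mean (f (lk p) a) * mean (f' (rk p) a') := by
      simp only [sum_const, card_range, nsmul_eq_mul]
      rw [mul_sum]
    rw [this]
    exact mul_le_mul_of_nonneg_left (hLM.trans (hV L M)) (by positivity)
  have h3 := dev_le hS f hf hf1 t hm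
  have h4 := dev_le hS' f' hf' hf'1 t hm'
  linarith

end Pool.Agent.H697.Red
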