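import Pool.Agent.H697.Red.Abs
import Pool.Agent.H697.UG.Defs

/-!
# The reduction: definition and counting
-/

namespace Pool.Agent.H697.Red

open Finset Pool.Agent.H697.Exp Pool.Agent.H697.UG

/-- Words. -/
abbrev Wd (t : ℕ) : Type := Fin t → Fin 8

/-- The number of edges with a given key. -/
def degK (k : Edge → ℕ) (I : Game) (u : ℕ) : ℕ := (I.filter fun e => decide (k e = u)).length

/-- The left vertex of an edge. -/
def kL (e : Edge) : ℕ := e.1.1

/-- The right vertex of an edge. -/
def kR (e : Edge) : ℕ := e.1.2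

/-- The side of the cloud. -/
def side (k : Edge → ℕ) (b : ℕ) (I : Game) (u : ℕ) : ℕ := Nat.sqrt (b * degK k I u) + 1

instance (k : Edge → ℕ) (b : ℕ) (I : Game) (u : ℕ) : NeZero (side k b I u) :=
  ⟨Nat.succ_ne_zero _⟩

/-- The number of the slot `i` of the edge at position `p` whose key is `u`. -/
def slot (k : Edge → ℕ) (b : ℕ) (I : Game) (i p u : ℕ) : ℕ := degK k (I.take p) u * b + i

/-- The code of a vertex of the new game. -/
def code (u : ℕ) {m : ℕ} (z : ZMod m × ZMod m) (x : ℕ) : ℕ :=
  Nat.pair (Nat.pair u (Nat.pair z.1.val z.2.val)) x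

/-- The new vertex for the edge `ep.1` at position `ep.2`. -/
def vtx (k : Edge → ℕ) (b : ℕ) {t : ℕ} (I : Game) (i : ℕ) (w : Wd t) (x : ℕ) (ep : Edge × ℕ) : ℕ :=
  code (k ep.1) (act w (pos (side k b I (k ep.1)) (slot k b I i ep.2 (k ep.1)))) x

/-- The new edge. -/
def out (b : ℕ) {t : ℕ} (I : Game) (i : ℕ) (c : Wd t × Wd t) (xy : ℕ × ℕ) (ep : Edge × ℕ) : Edge :=
  ((vtx kL b I i c.1 xy.1 ep, vtx kR b I i c.2 xy.2 ep), ep.1.2)

/-- The new game. -/
noncomputable def Phi (b : ℕ) {t : ℕ} (B : Wd t × Wd t → Finset (ℕ × ℕ)) (I : Game) : Game :=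
  (List.range b).flatMap fun i => (univ : Finset (Wd t × Wd t)).toList.flatMap fun c =>
    (B c).toList.flatMap fun xy => I.zipIdx.map fun ep => out b I i c xy ep

theorem sum_range_list (b : ℕ) (g : ℕ → ℕ) : ((List.range b).map g).sum = ∑ i ∈ range b, g i := by
  induction b with
  | zero => simp
  | succ b ih => rw [List.range_succ, List.map_append, List.sum_append, ih, sum_range_succ]; simp

theorem countP_ofFn {α : Type} (Q : α → Bool) : ∀ {n : ℕ} (G : Fin n → α),
    (List.ofFn G).countP Q = (univ.filter fun p : Fin n => Q (G p) = true).card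
  | 0, _ => by simp
  | n + 1, G => by
    rw [List.ofFn_succ, List.countP_cons, countP_ofFn Q fun i => G i.succ,
      Fin.card_filter_univ_succ]
    split_ifs <;> rfl

theorem filter_ofFn {α : Type} (Q : α → Bool) (l : List α) :
    (l.filter Q).length = (univ.filter fun p : Fin l.length => Q l[p] = true).card := by
  have h1 : l = List.ofFn fun p : Fin l.length => l[p] := by
    apply List.ext_getElem
    · simp
    · intro n h1 h2
      simp
  rw [← List.countP_eq_length_filter]
  conv_lhs => rw [h1]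
  rw [countP_ofFn]

theorem filter_zipIdx (I : Game) (F : Edge × ℕ → Edge) (Q : Edge → Bool) :
    ((I.zipIdx.map F).filter Q).length =
      (univ.filter fun p : Fin I.length => Q (F (I[p], (p : ℕ))) = true).card := by
  have h1 : I.zipIdx.map F = List.ofFn fun p : Fin I.length => F (I[p], (p : ℕ)) := by
    apply List.ext_getElem
    · simp
    · intro n h1 h2
      simp
  rw [h1, ← List.countP_eq_length_filter, countP_ofFn]

theorem filter_Phi (b : ℕ) {t : ℕ} (B : Wd t × Wd t → Finset (ℕ × ℕ)) (I : Game)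
    (Q : Edge → Bool) : ((Phi b B I).filter Q).length =
      ∑ i ∈ range b, ∑ c, ∑ xy ∈ B c,
        (univ.filter fun p : Fin I.length => Q (out b I i c xy (I[p], (p : ℕ))) = true).card := by
  unfold Phi
  simp only [List.filter_flatMap, List.length_flatMap]
  rw [← sum_range_list]
  congr 1
  refine List.map_congr_left fun i _ => ?_
  rw [Finset.sum_map_toList]
  refine sum_congr rfl fun c _ => ?_
  rw [Finset.sum_map_toList]
  refine sum_congr rfl fun xy _ => ?_
  exact filter_zipIdx I (fun ep => out b I i c xy ep) Q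

theorem length_Phi (b : ℕ) {t : ℕ} (B : Wd t × Wd t → Finset (ℕ × ℕ)) (I : Game) :
    (Phi b B I).length = b * (∑ c, (B c).card) * I.length := by
  have h := filter_Phi b B I fun _ => true
  rw [List.filter_true] at h
  rw [h]
  simp only [filter_true, card_univ, Fintype.card_fin, sum_const, smul_eq_mul, card_range]
  rw [← sum_mul]
  ring

theorem mem_Phi {b : ℕ} {t : ℕ} {B : Wd t × Wd t → Finset (ℕ × ℕ)} {I : Game} {e : Edge} :
    e ∈ Phi b B I ↔ ∃ i < b, ∃ c, ∃ xy ∈ B c, ∃ p : Fin I.length,
      e = out b I i c xy (I[p], (p : ℕ)) := by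
  unfold Phi
  simp only [List.mem_flatMap, List.mem_range, mem_toList, mem_univ, true_and, List.mem_map]
  constructor
  · rintro ⟨i, hi, c, xy, hxy, ⟨e', p⟩, hp, rfl⟩
    obtain ⟨h1, h2⟩ := List.mem_zipIdx' hp
    exact ⟨i, hi, c, xy, hxy, ⟨p, h1⟩, by rw [h2]; rfl⟩
  · rintro ⟨i, hi, c, xy, hxy, p, rfl⟩
    refine ⟨i, hi, c, xy, hxy, (I[p], (p : ℕ)), ?_, rfl⟩
    rw [List.mem_iff_getElem]
    exact ⟨p, by simp, by simp⟩

/-! ### Slots -/

variable (k : Edge → ℕ) (I : Game)

theorem degK_mono {l l' : Game} (h : l.Sublist l') (u : ℕ) : degK k l u ≤ degK k l' u :=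
  (h.filter _).length_le

theorem degK_take_succ (p : Fin I.length) :
    degK k (I.take (p + 1)) (k I[p]) = degK k (I.take p) (k I[p]) + 1 := by
  unfold degK
  rw [List.take_add_one, List.filter_append, List.length_append]
  congr 1
  simp

theorem degK_lt (p : Fin I.length) : degK k (I.take p) (k I[p]) < degK k I (k I[p]) := by
  have h1 := degK_take_succ k I p
  have h2 := degK_mono k (List.take_sublist (p + 1) I) (k I[p])
  omega

theorem degK_eq (u : ℕ) : degK k I u = (univ.filter fun p : Fin I.length => k I[p] = u).card := by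
  unfold degK
  rw [filter_ofFn]
  simp only [decide_eq_true_eq]

theorem rank_inj {p p' : Fin I.length} (hk : k I[p] = k I[p'])
    (h : degK k (I.take p) (k I[p]) = degK k (I.take p') (k I[p'])) : p = p' := by
  by_contra hne
  rcases lt_or_gt_of_ne hne with hlt | hlt
  · have h1 := degK_take_succ k I p
    have h2 := degK_mono k (List.take_sublist_take_left (l := I) (show (p : ℕ) + 1 ≤ p' from hlt))
      (k I[p])
    rw [hk] at h h1 h2
    omega
  · have h1 := degK_take_succ k I p'
    have h2 := degK_mono k (List.take_sublist_take_left (l := I) (show (p' : ℕ) + 1 ≤ p from hlt))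
      (k I[p])
    rw [hk] at h h2
    omega

theorem slots (b : ℕ) : Slots (Fin I.length) b (fun p => k I[p]) (side k b I)
    (fun p i => slot k b I i p (k I[p])) where
  lt p i hi := by
    unfold side slot
    have h1 := degK_lt k I p
    have h2 : b * degK k I (k I[p]) < (Nat.sqrt (b * degK k I (k I[p])) + 1) *
      (Nat.sqrt (b * degK k I (k I[p])) + 1) := Nat.lt_succ_sqrt _
    have h3 : b * (degK k (I.take p) (k I[p]) + 1) ≤ b * degK k I (k I[p]) :=
      Nat.mul_le_mul_left b h1
    have h4 : b * (degK k (I.take p) (k I[p]) + 1) = degK k (I.take p) (k I[p]) * b + b := by ring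
    omega
  inj p p' i i' hk hi hi' h := by
    unfold slot at h
    have h1 : degK k (I.take p) (k I[p]) = degK k (I.take p') (k I[p']) := by
      have h2 := congrArg (· / b) h
      beta_reduce at h2
      rw [mul_comm _ b, mul_comm _ b, Nat.mul_add_div (by omega), Nat.mul_add_div (by omega),
        Nat.div_eq_of_lt hi, Nat.div_eq_of_lt hi'] at h2
      simpa using h2
    refine ⟨rank_inj k I hk h1, ?_⟩
    rw [h1] at h
    omega

theorem side_sq_le {b : ℕ} (hb : 100 ≤ b) {u : ℕ} (hu : 0 < degK k I u) :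
    4 * (side k b I u) ^ 2 ≤ 5 * (b * degK k I u) := by
  unfold side
  set X := b * degK k I u with hX
  have hX100 : 100 ≤ X := by
    calc 100 ≤ b * 1 := by omega
      _ ≤ X := Nat.mul_le_mul_left b hu
  set s := Nat.sqrt X with hs
  have h1 : s * s ≤ X := Nat.sqrt_le X
  have h2 : 10 ≤ s := by
    rw [hs, Nat.le_sqrt]
    omega
  have h3 : 10 * s ≤ s * s := Nat.mul_le_mul_right s h2
  nlinarith

theorem sum_deg : ∑ u ∈ univ.image (fun p : Fin I.length => k I[p]), degK k I u = I.length := by
  have h2 : ∀ p ∈ (univ : Finset (Fin I.length)), k I[p] ∈ univ.image fun p : Fin I.length => k I[p] :=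
    fun p hp => mem_image_of_mem (fun p : Fin I.length => k I[p]) hp
  have h := card_eq_sum_card_fiberwise h2
  rw [card_univ, Fintype.card_fin] at h
  conv_rhs => rw [h]
  exact sum_congr rfl fun u _ => degK_eq k I u

theorem sum_side {b : ℕ} (hb : 100 ≤ b) :
    4 * ∑ u ∈ univ.image (fun p : Fin I.length => k I[p]), (side k b I u) ^ 2 ≤
      5 * (b * I.length) := by
  have h0 := sum_deg k I
  have h1 : 5 * (b * I.length) =
      ∑ u ∈ univ.image (fun p : Fin I.length => k I[p]), 5 * (b * degK k I u) := by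
    rw [← mul_sum, ← mul_sum, h0]
  rw [h1, mul_sum]
  refine sum_le_sum fun u hu => side_sq_le k I hb ?_
  obtain ⟨p, _, rfl⟩ := mem_image.1 hu
  exact lt_of_le_of_lt (Nat.zero_le _) (degK_lt k I p)

end Pool.Agent.H697.Red
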