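import Pool.Agent.H697.Red.Defs

/-!
# The reduction runs in polynomial time
-/

namespace Pool.Agent.H697.Red

open Pool.Agent.NPC Pool.Agent.H697.Exp Pool.Agent.H697.UG

section
variable {α β : Type} [TEnc α] [TEnc β]

theorem poly_flatMap_const {κ : Type} (K : List κ) (F : κ → α → List β) (h : ∀ k ∈ K, Poly (F k)) :
    Poly (fun a => K.flatMap fun k => F k a) := by
  induction K with
  | nil => exact (NPC.Poly.const []).congr fun a => rfl
  | cons k K ih =>
    have h1 := Poly.append (h k (List.mem_cons_self ..)) (ih fun k' hk' =>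
      h k' (List.mem_cons_of_mem _ hk'))
    exact h1.congr fun a => by rw [List.flatMap_cons]

theorem poly_pair {m n : α → ℕ} (hm : Poly m) (hn : Poly n) :
    Poly (fun a => Nat.pair (m a) (n a)) := by
  refine (Poly.ite (p := fun a => m a < n a) (Poly.decide_lt hm hn)
    (Poly.add (Poly.mul hn hn) hm) (Poly.add (Poly.add (Poly.mul hm hm) hm) hn)).congr
    fun a => ?_
  unfold Nat.pair
  rfl

theorem length_filter_range (Y s : ℕ) (h : s ≤ Y) (P : ℕ → Bool) (hP : ∀ k, P k = true ↔ k < s) :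
    ((List.range Y).filter P).length = s := by
  obtain ⟨d, rfl⟩ := Nat.exists_eq_add_of_le h
  rw [List.range_add, List.filter_append, List.length_append]
  have h1 : (List.range s).filter P = List.range s := by
    rw [List.filter_eq_self]
    intro k hk
    rw [hP]
    exact List.mem_range.1 hk
  have h2 : ((List.range d).map (fun x => s + x)).filter P = [] := by
    rw [List.filter_eq_nil_iff]
    intro k hk
    rw [hP]
    obtain ⟨x, _, rfl⟩ := List.mem_map.1 hk
    omega
  rw [h1, h2, List.length_range]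
  rfl

theorem poly_sqrt {X Y : α → ℕ} (hX : Poly X) (hY : UPoly Y) (h : ∀ a, X a ≤ Y a) :
    Poly (fun a => Nat.sqrt (X a)) := by
  have h1 : Poly (fun a => ((List.range (Y a)).filter
      (fun k => decide ((k + 1) * (k + 1) ≤ X a))).length) := by
    refine Poly.length (Poly.filter (p := fun a k => decide ((k + 1) * (k + 1) ≤ X a)) hY.range ?_)
    exact Poly.decide_le (Poly.mul (Poly.succ (Poly.snd Poly.id)) (Poly.succ (Poly.snd Poly.id)))
      (hX.comp (Poly.fst Poly.id))
  refine h1.congr fun a => length_filter_range _ _ ((Nat.sqrt_le_self _).trans (h a)) _ fun k => ?_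
  rw [decide_eq_true_eq, ← Nat.le_sqrt]
  exact Nat.succ_le_iff

theorem poly_degK {k : Edge → ℕ} (hk : Poly k) {R : α → Game} {u : α → ℕ} (hR : Poly R)
    (hu : Poly u) : Poly (fun a => degK k (R a) (u a)) := by
  unfold degK
  exact Poly.length (Poly.filter (p := fun a (e : Edge) => decide (k e = u a)) hR
    (Poly.decide_eq (hk.comp (Poly.snd Poly.id)) (hu.comp (Poly.fst Poly.id))))

theorem degK_take (k : Edge → ℕ) (u : ℕ) : ∀ (I : Game) (p n : ℕ),
    degK k (I.take p) u = ((I.zipIdx n).filter fun ep =>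
      decide (ep.2 < n + p) && decide (k ep.1 = u)).length
  | [], p, n => by simp [degK]
  | e :: I, 0, n => by
    have : ((e :: I).zipIdx n).filter (fun ep => decide (ep.2 < n + 0) && decide (k ep.1 = u)) =
        [] := by
      rw [List.filter_eq_nil_iff]
      rintro ⟨e', j⟩ hj
      have h1 := List.le_snd_of_mem_zipIdx hj
      simp only [add_zero, Bool.and_eq_true, decide_eq_true_eq, not_and]
      intro h2
      dsimp only at h1
      omega
    rw [this]
    rfl
  | e :: I, p + 1, n => by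
    have ih := degK_take k u I p (n + 1)
    unfold degK at ih ⊢
    rw [List.take_succ_cons, List.zipIdx_cons, List.filter_cons, List.filter_cons]
    have h1 : n + 1 + p = n + (p + 1) := by ring
    rw [h1] at ih
    by_cases he : k e = u
    · simp only [he, decide_true, if_true, Bool.and_true, List.length_cons, ih]
      rw [if_pos]
      · simp
      · simp
    · simp only [he, decide_false, Bool.and_false, Bool.false_eq_true, if_false, ih]

theorem poly_degK_take {k : Edge → ℕ} (hk : Poly k) {R : α → Game} {u p : α → ℕ} (hR : Poly R)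
    (hu : Poly u) (hp : Poly p) : Poly (fun a => degK k ((R a).take (p a)) (u a)) := by
  have h1 : Poly (fun a => ((R a).zipIdx.filter fun ep =>
      decide (ep.2 < p a) && decide (k ep.1 = u a)).length) := by
    refine Poly.length (Poly.filter (p := fun a (ep : Edge × ℕ) =>
      decide (ep.2 < p a) && decide (k ep.1 = u a)) (Poly.zipIdx hR) ?_)
    exact Poly.and (Poly.decide_lt (Poly.snd (Poly.snd Poly.id)) (hp.comp (Poly.fst Poly.id)))
      (Poly.decide_eq (hk.comp (Poly.fst (Poly.snd Poly.id))) (hu.comp (Poly.fst Poly.id)))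
  refine h1.congr fun a => ?_
  rw [degK_take k (u a) (R a) (p a) 0, Nat.zero_add]

theorem poly_side {k : Edge → ℕ} (hk : Poly k) (b : ℕ) {R : α → Game} {u : α → ℕ} (hR : Poly R)
    (hu : Poly u) : Poly (fun a => side k b (R a) (u a)) := by
  unfold side
  refine Poly.succ (poly_sqrt (Poly.mul (NPC.Poly.const b) (poly_degK hk hR hu))
    (UPoly.mul (UPoly.const b) (UPoly.length hR)) fun a => ?_)
  exact Nat.mul_le_mul_left _ (List.length_filter_le _ _)

theorem poly_slot {k : Edge → ℕ} (hk : Poly k) (b i : ℕ) {R : α → Game} {u p : α → ℕ}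
    (hR : Poly R) (hu : Poly u) (hp : Poly p) : Poly (fun a => slot k b (R a) i (p a) (u a)) := by
  unfold slot
  exact Poly.add (Poly.mul (poly_degK_take hk hR hu hp) (NPC.Poly.const b)) (NPC.Poly.const i)

end

/-! ### Words -/

theorem val_of_cast {m : ℕ} [NeZero m] {x : ZMod m} {n : ℕ} (h : (n : ZMod m) = x) :
    x.val = n % m := by
  rw [← h, ZMod.val_natCast]

theorem val_add {m : ℕ} [NeZero m] (x y : ZMod m) (c : ℕ) :
    (x + 2 * y + (c : ZMod m)).val = (x.val + 2 * y.val + c) % m := by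
  apply val_of_cast
  push_cast
  rw [ZMod.natCast_zmod_val, ZMod.natCast_zmod_val]

theorem val_sub {m : ℕ} [NeZero m] (x y : ZMod m) (c : ℕ) :
    (x - 2 * y - (c : ZMod m)).val = (x.val + (m - 1) * (2 * y.val + c)) % m := by
  apply val_of_cast
  have h1 : ((m - 1 : ℕ) : ZMod m) = -1 := by
    rw [Nat.cast_sub (Nat.one_le_iff_ne_zero.2 (NeZero.ne m))]
    simp
  push_cast
  rw [h1, ZMod.natCast_zmod_val, ZMod.natCast_zmod_val]
  ring

section
variable {α : Type} [TEnc α] {m : α → ℕ} [∀ a, NeZero (m a)]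

/-- Both coordinates are computable in polynomial time. -/
def PolyZ (z : ∀ a, ZMod (m a) × ZMod (m a)) : Prop :=
  Poly (fun a => (z a).1.val) ∧ Poly (fun a => (z a).2.val)

theorem polyZ_gen (hm : Poly m) {z : ∀ a, ZMod (m a) × ZMod (m a)} (hz : PolyZ z) (j : Fin 8) :
    PolyZ (fun a => gen j (z a)) := by
  obtain ⟨h1, h2⟩ := hz
  have two : ∀ {f : α → ℕ}, Poly f → Poly (fun a => 2 * f a) := fun hf =>
    Poly.mul (NPC.Poly.const 2) hf
  have hadd : ∀ (c : ℕ) {f g : α → ℕ}, Poly f → Poly g →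
      Poly (fun a => (f a + 2 * g a + c) % m a) := fun c f g hf hg =>
    Poly.mod (Poly.add (Poly.add hf (two hg)) (NPC.Poly.const c)) hm
  have hsub : ∀ (c : ℕ) {f g : α → ℕ}, Poly f → Poly g →
      Poly (fun a => (f a + (m a - 1) * (2 * g a + c)) % m a) := fun c f g hf hg =>
    Poly.mod (Poly.add hf (Poly.mul (Poly.sub hm (NPC.Poly.const 1))
      (Poly.add (two hg) (NPC.Poly.const c)))) hm
  fin_cases j
  · refine ⟨(hadd 0 h1 h2).congr fun a => ?_, h2⟩
    rw [← val_add, Nat.cast_zero]; rfl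
  · refine ⟨(hadd 1 h1 h2).congr fun a => ?_, h2⟩
    rw [← val_add, Nat.cast_one]; rfl
  · refine ⟨h1, (hadd 0 h2 h1).congr fun a => ?_⟩
    rw [← val_add, Nat.cast_zero]; rfl
  · refine ⟨h1, (hadd 1 h2 h1).congr fun a => ?_⟩
    rw [← val_add, Nat.cast_one]; rfl
  · refine ⟨(hsub 0 h1 h2).congr fun a => ?_, h2⟩
    rw [← val_sub, Nat.cast_zero]; rfl
  · refine ⟨(hsub 1 h1 h2).congr fun a => ?_, h2⟩
    rw [← val_sub, Nat.cast_one]; rfl
  · refine ⟨h1, (hsub 0 h2 h1).congr fun a => ?_⟩
    rw [← val_sub, Nat.cast_zero]; rfl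
  · refine ⟨h1, (hsub 1 h2 h1).congr fun a => ?_⟩
    rw [← val_sub, Nat.cast_one]; rfl

theorem polyZ_act (hm : Poly m) : ∀ {t : ℕ} (w : Wd t) {z : ∀ a, ZMod (m a) × ZMod (m a)},
    PolyZ z → PolyZ (fun a => act w (z a))
  | 0, _, _, hz => hz
  | _ + 1, w, _, hz => polyZ_act hm (fun j => w j.succ) (polyZ_gen hm hz (w 0))

theorem polyZ_pos (hm : Poly m) {j : α → ℕ} (hj : Poly j) :
    PolyZ (fun a => pos (m a) (j a)) := by
  constructor
  · refine (Poly.mod (Poly.div hj hm) hm).congr fun a => ?_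
    unfold pos
    rw [ZMod.val_natCast]
  · refine (Poly.mod (Poly.mod hj hm) hm).congr fun a => ?_
    unfold pos
    rw [ZMod.val_natCast]

end

theorem poly_vtx {k : Edge → ℕ} (hk : Poly k) (b : ℕ) {t : ℕ} (i : ℕ) (w : Wd t) (x : ℕ) :
    Poly (fun p : Game × (Edge × ℕ) => vtx k b p.1 i w x p.2) := by
  have hI : Poly (fun p : Game × (Edge × ℕ) => p.1) := Poly.fst Poly.id
  have hu : Poly (fun p : Game × (Edge × ℕ) => k p.2.1) := hk.comp (Poly.fst (Poly.snd Poly.id))
  have hp : Poly (fun p : Game × (Edge × ℕ) => p.2.2) := Poly.snd (Poly.snd Poly.id)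
  have hm : Poly (fun p : Game × (Edge × ℕ) => side k b p.1 (k p.2.1)) := poly_side hk b hI hu
  have hs : Poly (fun p : Game × (Edge × ℕ) => slot k b p.1 i p.2.2 (k p.2.1)) :=
    poly_slot hk b i hI hu hp
  obtain ⟨h1, h2⟩ := polyZ_act hm w (polyZ_pos hm hs)
  unfold vtx code
  exact poly_pair (poly_pair hu (poly_pair h1 h2)) (NPC.Poly.const x)

theorem poly_kL : Poly kL := Poly.fst (Poly.fst Poly.id)

theorem poly_kR : Poly kR := Poly.snd (Poly.fst Poly.id)

theorem poly_Phi (b : ℕ) {t : ℕ} (B : Wd t × Wd t → Finset (ℕ × ℕ)) : Poly (Phi b B) := by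
  unfold Phi
  refine poly_flatMap_const _ _ fun i _ => poly_flatMap_const _ _ fun c _ =>
    poly_flatMap_const _ _ fun xy _ => ?_
  refine NPC.Poly.map (F := fun (I : Game) (ep : Edge × ℕ) => out b I i c xy ep)
    (Poly.zipIdx Poly.id) ?_
  unfold out
  exact Poly.pair (Poly.pair (poly_vtx poly_kL b i c.1 xy.1) (poly_vtx poly_kR b i c.2 xy.2))
    (Poly.snd (Poly.fst (Poly.snd Poly.id)))

end Pool.Agent.H697.Red
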