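import Pool.Agent.H697.Red.Value
import Pool.Agent.H697.Red.Time

/-!
# The reduction: summary
-/

namespace Pool.Agent.H697.Red

open Finset Pool.Agent.H697.Exp Pool.Agent.H697.UG Pool.Agent.H697.Forest Pool.Agent.NPC

theorem final_arith {D N l T s : ℕ} {W δ δ' τ x y : ℝ} (hT : (1 - 6 * τ) * (D * N * W) ≤ T)
    (hW : 0 ≤ W) (h0 : 0 ≤ δ') (h4 : δ + x + y ≤ δ' * (1 - 6 * τ))
    (hs : (s : ℝ) ≤ (D * N * W) * ((100 : ℕ) * l) * (δ + x + y)) :
    (s : ℝ) ≤ δ' * ((100 * T * l : ℕ) : ℝ) := by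
  refine hs.trans ?_
  calc D * N * W * ((100 : ℕ) * l) * (δ + x + y)
      ≤ D * N * W * ((100 : ℕ) * l) * (δ' * (1 - 6 * τ)) :=
        mul_le_mul_of_nonneg_left h4 (by positivity)
    _ = δ' * ((100 : ℕ) * l) * ((1 - 6 * τ) * (D * N * W)) := by ring
    _ ≤ δ' * ((100 : ℕ) * l) * T := mul_le_mul_of_nonneg_left hT (by positivity)
    _ = δ' * ((100 * T * l : ℕ) : ℝ) := by push_cast; ring

/-- There is a polynomial-time map which turns every game into a simple near-regular game of large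
girth, which keeps the tables, which does not decrease the value, and which does not increase
it to more than `δ'` if it is at most `δ`. -/
theorem exists_reduction {q : ℕ} (hq : 0 < q) (g : ℕ) {δ δ' : ℝ} (h : δ < δ') (h0 : 0 ≤ δ') (h1 : δ' ≤ 1) :
    ∃ F : Game → Game, Poly F ∧ ∀ I, Simple (F I) ∧ (∀ K, 2 ≤ K → AlmostRegular K (F I)) ∧
      GirthGT (cgraph (F I)) g ∧ (I ≠ [] → F I ≠ []) ∧
      (∀ e ∈ F I, ∃ e' ∈ I, e.2 = e'.2) ∧
      (∀ L M : ℕ → Fin q, ∃ L' M' : ℕ → Fin q,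
        numSat (F I) L' M' * I.length = numSat I L M * (F I).length) ∧
      ((∀ L M : ℕ → Fin q, (numSat I L M : ℝ) ≤ δ * I.length) →
        ∀ L M : ℕ → Fin q, (numSat (F I) L M : ℝ) ≤ δ' * (F I).length) := by
  have hd : 0 < δ' - δ := by linarith
  set τ : ℝ := min (1 / 36) ((δ' - δ) / (2 * (q + 6))) with hτ
  have hτ0 : 0 < τ := lt_min (by norm_num) (by positivity)
  have hτ1 : τ ≤ 1 / 36 := min_le_left _ _
  have hτ2 : τ * (q + 6) ≤ (δ' - δ) / 2 := by
    have h2 : τ ≤ (δ' - δ) / (2 * (q + 6)) := min_le_right _ _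
    have h3 : (0 : ℝ) < q + 6 := by positivity
    calc τ * (q + 6) ≤ (δ' - δ) / (2 * (q + 6)) * (q + 6) := mul_le_mul_of_nonneg_right h2 h3.le
      _ = (δ' - δ) / 2 := by field_simp
  obtain ⟨t, ht⟩ := exists_pow_lt_of_lt_one (show (0 : ℝ) < (δ' - δ) / (2 * (q + 2)) by positivity)
    (show (73 / 80 : ℝ) < 1 by norm_num)
  have ht2 : (73 / 80 : ℝ) ^ t * (q + 2) ≤ (δ' - δ) / 2 := by
    have h3 : (0 : ℝ) < q + 2 := by positivity
    calc (73 / 80 : ℝ) ^ t * (q + 2) ≤ (δ' - δ) / (2 * (q + 2)) * (q + 2) :=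
          mul_le_mul_of_nonneg_right ht.le h3.le
      _ = (δ' - δ) / 2 := by field_simp
  classical
  obtain ⟨D, N, B, hG⟩ := exists_gadget (C := Wd t × Wd t) (max g 2) (le_max_right _ _) hτ0
    (by linarith)
  have hT : (1 - 6 * τ) * (D * N * ((8 : ℝ) ^ t) ^ 2) ≤ ((∑ c, (B c).card : ℕ) : ℝ) := by
    have h2 : ∀ c ∈ (univ : Finset (Wd t × Wd t)), (1 - 6 * τ) * D * N ≤ ((B c).card : ℝ) :=
      fun c _ => hG.card c
    have h3 := sum_le_sum h2
    rw [sum_const, card_univ, nsmul_eq_mul, Fintype.card_prod, Fintype.card_fun, Fintype.card_fin,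
      Fintype.card_fin, ← Nat.cast_sum] at h3
    generalize (∑ c, (B c).card : ℕ) = T at h3 ⊢
    push_cast at h3
    linarith
  have hD0 : (0 : ℝ) < D := by exact_mod_cast hG.posD
  have hN0 : (0 : ℝ) < N := by exact_mod_cast hG.posN
  have hW0 : (0 : ℝ) < ((8 : ℝ) ^ t) ^ 2 := by positivity
  have hTpos : 0 < ∑ c, (B c).card := by
    have h2 : (0 : ℝ) < (1 - 6 * τ) * (D * N * ((8 : ℝ) ^ t) ^ 2) := by
      have : 0 < 1 - 6 * τ := by linarith
      positivity
    have h3 : (0 : ℝ) < ((∑ c, (B c).card : ℕ) : ℝ) := lt_of_lt_of_le h2 hT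
    exact_mod_cast h3
  have h4 : δ + (73 / 80) ^ t * (q + 2) + q * τ ≤ δ' * (1 - 6 * τ) := by
    have h5 : δ' * τ ≤ 1 * τ := mul_le_mul_of_nonneg_right h1 hτ0.le
    have h6 : δ' * (1 - 6 * τ) = δ' - 6 * (δ' * τ) := by ring
    have h7 : τ * (q + 6) = q * τ + 6 * τ := by ring
    rw [h6]
    linarith
  have hb : 100 ≤ 100 := le_refl _
  refine ⟨Phi 100 B, poly_Phi 100 B, fun I => ?_⟩
  have hlen := length_Phi 100 B I
  have hsound := sound_Phi (b := 100) (I := I) hG hq hb (δ := δ)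
  have hcomp := complete_Phi (q := q) 100 B I
  have htab : ∀ e ∈ Phi 100 B I, ∃ e' ∈ I, e.2 = e'.2 := fun e he => tables_Phi he
  have hgirth := girth_Phi (b := 100) (I := I) hG
  have hreg : ∀ K, 2 ≤ K → AlmostRegular K (Phi 100 B I) := fun K hK =>
    regular_Phi (b := 100) (I := I) hG hτ1 hb hK
  have hsim := simple_Phi (b := 100) (I := I) hG.disj
  generalize Phi 100 B I = J at *
  generalize (∑ c, (B c).card) = T at *
  refine ⟨hsim, hreg, ?_, ?_, htab, ?_, ?_⟩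
  · intro a p hp
    exact lt_of_le_of_lt (le_max_left _ _) (hgirth a p hp)
  · intro hI hF
    rw [hF, List.length_nil] at hlen
    have h3 : 0 < I.length := List.length_pos_iff.2 hI
    have : 0 < 100 * T * I.length := by positivity
    omega
  · intro L M
    obtain ⟨L', M', h2⟩ := hcomp L M
    refine ⟨L', M', ?_⟩
    rw [h2, hlen]
    ring
  · intro hno L M
    rw [hlen]
    exact final_arith hT hW0.le h0 h4 (hsound hno L M)

end Pool.Agent.H697.Red
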