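import Pool.Agent.H697.Red.Defs
import Pool.Agent.H697.Exp.Gadget
import Pool.Agent.H697.Exp.Girth

/-!
# The reduction: structure of the new constraint graph
-/

namespace Pool.Agent.H697.Red

open Finset Pool.Agent.H697.Exp Pool.Agent.H697.UG Pool.Agent.H697.Forest

variable {b t : ℕ} {B : Wd t × Wd t → Finset (ℕ × ℕ)} {I : Game} {k : Edge → ℕ}

theorem code_act_inj (m : ℕ → ℕ) [∀ u, NeZero (m u)] {u u' j j' x x' : ℕ} (w : Wd t)
    (hj : j < m u * m u) (hj' : j' < m u' * m u')
    (h : code u (act w (pos (m u) j)) x = code u' (act w (pos (m u') j')) x') :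
    u = u' ∧ j = j' ∧ x = x' := by
  unfold code at h
  rw [Nat.pair_eq_pair, Nat.pair_eq_pair, Nat.pair_eq_pair] at h
  obtain ⟨⟨rfl, h1, h2⟩, h3⟩ := h
  have h4 : act w (pos (m u) j) = act w (pos (m u) j') :=
    Prod.ext (ZMod.val_injective _ h1) (ZMod.val_injective _ h2)
  exact ⟨rfl, pos_inj hj hj' (act_injective w h4), h3⟩

theorem vtx_inj {w : Wd t} {i i' x x' : ℕ} {p p' : Fin I.length} (hi : i < b) (hi' : i' < b)
    (h : vtx k b I i w x (I[p], (p : ℕ)) = vtx k b I i' w x' (I[p'], (p' : ℕ))) :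
    p = p' ∧ i = i' ∧ x = x' := by
  have hS := slots k I b
  obtain ⟨h1, h2, h3⟩ := code_act_inj (side k b I) w (hS.lt p i hi) (hS.lt p' i' hi') h
  obtain ⟨h4, h5⟩ := hS.inj p p' i i' h1 hi hi' h2
  exact ⟨h4, h5, h3⟩

theorem unpair_vtx (w : Wd t) (i x : ℕ) (ep : Edge × ℕ) :
    (Nat.unpair (vtx k b I i w x ep)).2 = x := by
  unfold vtx code
  rw [Nat.unpair_pair]

theorem unpair_vtx_key (w : Wd t) (i x : ℕ) (ep : Edge × ℕ) :
    (Nat.unpair (Nat.unpair (vtx k b I i w x ep)).1).1 = k ep.1 := by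
  unfold vtx code
  rw [Nat.unpair_pair, Nat.unpair_pair]

theorem sum_fib {n : ℕ} (Q : ℕ → Fin n → Bool) :
    ∑ i ∈ range b, (univ.filter fun p : Fin n => Q i p = true).card =
      ((range b ×ˢ univ).filter fun x : ℕ × Fin n => Q x.1 x.2 = true).card := by
  rw [card_filter, sum_product]
  refine sum_congr rfl fun i _ => ?_
  rw [card_filter]

theorem deg_le (wd : Wd t × Wd t → Wd t) (co : ℕ × ℕ → ℕ) (a d : ℕ)
    (hB : ∀ c x, ((B c).filter fun p => co p = x).card ≤ d) :
    ∑ i ∈ range b, ∑ c, ∑ xy ∈ B c, (univ.filter fun p : Fin I.length =>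
      decide (vtx k b I i (wd c) (co xy) (I[p], (p : ℕ)) = a) = true).card ≤
      Fintype.card (Wd t × Wd t) * d := by
  rw [sum_comm]
  have h1 : ∀ c ∈ (univ : Finset (Wd t × Wd t)), ∑ i ∈ range b, ∑ xy ∈ B c,
      (univ.filter fun p : Fin I.length =>
      decide (vtx k b I i (wd c) (co xy) (I[p], (p : ℕ)) = a) = true).card ≤ d := by
    intro c _
    refine le_trans ?_ (hB c (Nat.unpair a).2)
    rw [sum_comm, card_filter]
    refine sum_le_sum fun xy _ => ?_
    rw [sum_fib]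
    split_ifs with hxy
    · rw [card_le_one]
      rintro ⟨i, p⟩ hx ⟨i', p'⟩ hx'
      simp only [mem_filter, mem_product, mem_range, mem_univ, and_true,
        decide_eq_true_eq] at hx hx'
      obtain ⟨h1, h2, _⟩ := vtx_inj hx.1 hx'.1 (hx.2.trans hx'.2.symm)
      rw [h1, h2]
    · rw [Nat.le_zero, card_eq_zero, filter_eq_empty_iff]
      rintro ⟨i, p⟩ _ hp
      rw [decide_eq_true_eq] at hp
      apply hxy
      rw [← hp, unpair_vtx]
  refine (sum_le_sum h1).trans (le_of_eq ?_)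
  rw [sum_const, card_univ, smul_eq_mul]

theorem verts_le {N : ℕ} (S : Finset ℕ) (hS : ∀ a ∈ S, ∃ (i : ℕ) (w : Wd t) (x : ℕ)
    (p : Fin I.length), x < N ∧ a = vtx k b I i w x (I[p], (p : ℕ))) :
    S.card ≤ N * ∑ u ∈ univ.image (fun p : Fin I.length => k I[p]), (side k b I u) ^ 2 := by
  classical
  have h1 : S ⊆ (univ.image (fun p : Fin I.length => k I[p])).biUnion fun u =>
      ((univ : Finset (ZMod (side k b I u) × ZMod (side k b I u))) ×ˢ range N).image
        fun zx => code u zx.1 zx.2 := by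
    intro a ha
    obtain ⟨i, w, x, p, hx, rfl⟩ := hS a ha
    rw [mem_biUnion]
    refine ⟨k I[p], mem_image_of_mem (fun p : Fin I.length => k I[p]) (mem_univ p), ?_⟩
    rw [mem_image]
    exact ⟨(_, x), mem_product.2 ⟨mem_univ _, mem_range.2 hx⟩, rfl⟩
  refine (card_le_card h1).trans (card_biUnion_le.trans ?_)
  rw [mul_sum]
  refine sum_le_sum fun u _ => card_image_le.trans (le_of_eq ?_)
  rw [card_product, card_range, card_univ, Fintype.card_prod, ZMod.card]
  ring

theorem simple_Phi (hdisj : ∀ c c' p, p ∈ B c → p ∈ B c' → c = c') : Simple (Phi b B I) := by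
  unfold Simple
  rw [List.nodup_iff_count_le_one]
  intro a
  have h1 : ((Phi b B I).map Prod.fst).count a =
      ((Phi b B I).filter fun e => decide (e.1 = a)).length := by
    rw [List.count, List.countP_map, List.countP_eq_length_filter]
    congr 2
    funext e
    simp only [Function.comp, beq_eq_decide]
  rw [h1, filter_Phi]
  rw [sum_comm]
  have h2 : ∀ c ∈ (univ : Finset (Wd t × Wd t)), ∑ i ∈ range b, ∑ xy ∈ B c,
      (univ.filter fun p : Fin I.length =>
      decide ((out b I i c xy (I[p], (p : ℕ))).1 = a) = true).card ≤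
      if ((Nat.unpair a.1).2, (Nat.unpair a.2).2) ∈ B c then 1 else 0 := by
    intro c _
    rw [sum_comm]
    have h3 : ∀ xy ∈ B c, ∑ i ∈ range b, (univ.filter fun p : Fin I.length =>
        decide ((out b I i c xy (I[p], (p : ℕ))).1 = a) = true).card ≤
        if xy = ((Nat.unpair a.1).2, (Nat.unpair a.2).2) then 1 else 0 := by
      intro xy _
      rw [sum_fib]
      split_ifs with hxy
      · rw [card_le_one]
        rintro ⟨i, p⟩ hx ⟨i', p'⟩ hx'
        simp only [mem_filter, mem_product, mem_range, mem_univ, and_true,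
          decide_eq_true_eq] at hx hx'
        have h4 := hx.2.trans hx'.2.symm
        have h5 := congrArg Prod.fst h4
        obtain ⟨h1, h2, _⟩ := vtx_inj hx.1 hx'.1 h5
        rw [h1, h2]
      · rw [Nat.le_zero, card_eq_zero, filter_eq_empty_iff]
        rintro ⟨i, p⟩ _ hp
        rw [decide_eq_true_eq] at hp
        apply hxy
        rw [← hp]
        simp only [out, unpair_vtx]
    refine (sum_le_sum h3).trans ?_
    rw [sum_ite_eq']
  refine (sum_le_sum h2).trans ?_
  rw [← card_filter, card_le_one]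
  intro c hc c' hc'
  exact hdisj c c' _ (mem_filter.1 hc).2 (mem_filter.1 hc').2

theorem reg_arith {W D N T b l d v s K : ℕ} (hK : 2 ≤ K) (hDN : (5 / 6 : ℝ) * (D * N) * W ≤ T)
    (hd : 4 * d ≤ W * (5 * D)) (hv : v ≤ N * s) (hs : 4 * s ≤ 5 * (b * l)) :
    d * v ≤ K * (b * T * l) := by
  have hd' : (4 * d : ℝ) ≤ W * (5 * D) := by exact_mod_cast hd
  have hv' : (v : ℝ) ≤ N * s := by exact_mod_cast hv
  have hs' : (4 * s : ℝ) ≤ 5 * (b * l) := by exact_mod_cast hs
  have hK' : (2 : ℝ) ≤ K := by exact_mod_cast hK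
  have h1 : (16 : ℝ) * (d * v) ≤ 25 * (W * (D * N) * (b * l)) := by
    have h3 : (4 * v : ℝ) ≤ N * (5 * (b * l)) := by
      calc (4 * v : ℝ) ≤ 4 * (N * s) := by linarith
        _ = N * (4 * s) := by ring
        _ ≤ N * (5 * (b * l)) := mul_le_mul_of_nonneg_left hs' (by positivity)
    calc (16 : ℝ) * (d * v) = (4 * d) * (4 * v) := by ring
      _ ≤ (W * (5 * D)) * (N * (5 * (b * l))) :=
          mul_le_mul hd' h3 (by positivity) (by positivity)
      _ = _ := by ring
  have h2 : 25 * (W * (D * N) * (b * l)) ≤ (16 : ℝ) * (2 * (b * T * l)) := by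
    have h3 : (0 : ℝ) ≤ b * l := by positivity
    have h4 := mul_le_mul_of_nonneg_right hDN h3
    have h5 : (5 / 6 : ℝ) * (D * N) * W * (b * l) = 5 / 6 * (W * (D * N) * (b * l)) := by ring
    have h6 : (T : ℝ) * (b * l) = b * T * l := by ring
    have h7 : (0 : ℝ) ≤ W * (D * N) * (b * l) := by positivity
    rw [h5, h6] at h4
    linarith
  have h5 : (2 : ℝ) * (b * T * l) ≤ K * (b * T * l) :=
    mul_le_mul_of_nonneg_right hK' (by positivity)
  have h6 : (d * v : ℝ) ≤ K * (b * T * l) := by linarith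
  exact_mod_cast h6

theorem regular_Phi {g D N : ℕ} {τ : ℝ} (hG : Gadget (Wd t × Wd t) g τ D N B) (hτ : τ ≤ 1 / 36)
    (hb : 100 ≤ b) {K : ℕ} (hK : 2 ≤ K) : AlmostRegular K (Phi b B I) := by
  have hDN : (5 / 6 : ℝ) * (D * N) * Fintype.card (Wd t × Wd t) ≤ ((∑ c, (B c).card : ℕ) : ℝ) := by
    have h1 : ∀ c ∈ (univ : Finset (Wd t × Wd t)), (5 / 6 : ℝ) * (D * N) ≤ (B c).card := by
      intro c _
      refine le_trans ?_ (hG.card c)
      have h2 : (0 : ℝ) ≤ D * N := by positivity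
      have h3 : (5 / 6 : ℝ) ≤ 1 - 6 * τ := by linarith
      rw [mul_assoc]
      exact mul_le_mul_of_nonneg_right h3 h2
    have h2 := sum_le_sum h1
    rw [sum_const, card_univ, nsmul_eq_mul] at h2
    push_cast
    push_cast at h2
    linarith
  have hlen : (Phi b B I).length = b * (∑ c, (B c).card) * I.length := length_Phi b B I
  have hmain : ∀ d v s : ℕ, 4 * d ≤ Fintype.card (Wd t × Wd t) * (5 * D) → v ≤ N * s →
      4 * s ≤ 5 * (b * I.length) → d * v ≤ K * (Phi b B I).length := by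
    intro d v s hd hv hs
    rw [hlen]
    exact reg_arith hK hDN hd hv hs
  constructor
  · intro u
    refine hmain _ _ _ ?_ (verts_le (k := kL) (b := b) (I := I) (t := t) _ ?_) (sum_side kL I hb)
    · unfold degL
      rw [filter_Phi]
      have h1 := deg_le (k := kL) (b := b) (I := I) (B := B) (fun c => c.1) (fun xy => xy.1) u D
        hG.left
      refine (Nat.mul_le_mul_left 4 h1).trans ?_
      generalize Fintype.card (Wd t × Wd t) = W
      calc 4 * (W * D) = W * (4 * D) := by ring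
        _ ≤ W * (5 * D) := Nat.mul_le_mul_left _ (by omega)
    · intro a ha
      rw [List.mem_toFinset, List.mem_map] at ha
      obtain ⟨e, he, rfl⟩ := ha
      obtain ⟨i, _, c, xy, hxy, p, rfl⟩ := mem_Phi.1 he
      exact ⟨i, c.1, xy.1, p, (hG.lt c xy hxy).1, rfl⟩
  · intro u
    refine hmain _ _ _ ?_ (verts_le (k := kR) (b := b) (I := I) (t := t) _ ?_) (sum_side kR I hb)
    · unfold degR
      rw [filter_Phi]
      have h1 := deg_le (k := kR) (b := b) (I := I) (B := B) (fun c => c.2) (fun xy => xy.2) u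
        (5 * D / 4) (fun c y => by
          rw [Nat.le_div_iff_mul_le (by norm_num)]
          have := hG.right c y
          omega)
      have h2 : ∀ W : ℕ, 4 * (W * (5 * D / 4)) ≤ W * (5 * D) := fun W =>
        calc 4 * (W * (5 * D / 4)) = W * (5 * D / 4 * 4) := by ring
          _ ≤ W * (5 * D) := Nat.mul_le_mul_left _ (Nat.div_mul_le_self _ _)
      exact (Nat.mul_le_mul_left 4 h1).trans (h2 _)
    · intro a ha
      rw [List.mem_toFinset, List.mem_map] at ha
      obtain ⟨e, he, rfl⟩ := ha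
      obtain ⟨i, _, c, xy, hxy, p, rfl⟩ := mem_Phi.1 he
      exact ⟨i, c.2, xy.2, p, (hG.lt c xy hxy).2, rfl⟩

/-- The projection to the gadget. -/
def proj : ℕ ⊕ ℕ → ℕ ⊕ ℕ
  | Sum.inl a => Sum.inl (Nat.unpair a).2
  | Sum.inr a => Sum.inr (Nat.unpair a).2

theorem mem_edges {a a' : ℕ} (h : (a, a') ∈ (Phi b B I).map Prod.fst) :
    ∃ i < b, ∃ c, ∃ xy ∈ B c, ∃ p : Fin I.length,
      a = vtx kL b I i c.1 xy.1 (I[p], (p : ℕ)) ∧ a' = vtx kR b I i c.2 xy.2 (I[p], (p : ℕ)) := by
  rw [List.mem_map] at h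
  obtain ⟨e, he, h2⟩ := h
  obtain ⟨i, hi, c, xy, hxy, p, rfl⟩ := mem_Phi.1 he
  have h3 := Prod.mk.inj h2
  exact ⟨i, hi, c, xy, hxy, p, h3.1.symm, h3.2.symm⟩

/-- The projection to the gadget is a homomorphism. -/
def projHom (b : ℕ) {t : ℕ} (B : Wd t × Wd t → Finset (ℕ × ℕ)) (I : Game) :
    cgraph (Phi b B I) →g bip ((univ.biUnion B : Finset (ℕ × ℕ)) : Set (ℕ × ℕ)) where
  toFun := proj
  map_rel' := by
    have key : ∀ a a' : ℕ, (a, a') ∈ (Phi b B I).map Prod.fst →
        ((Nat.unpair a).2, (Nat.unpair a').2) ∈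
          ((univ.biUnion B : Finset (ℕ × ℕ)) : Set (ℕ × ℕ)) := by
      intro a a' h
      obtain ⟨i, _, c, xy, hxy, p, rfl, rfl⟩ := mem_edges h
      rw [unpair_vtx, unpair_vtx, mem_coe, mem_biUnion]
      exact ⟨c, mem_univ _, hxy⟩
    intro x y h
    rcases x with x | x <;> rcases y with y | y
    · exact h.elim
    · exact key x y h
    · exact key y x h
    · exact h.elim

theorem girth_Phi {g D N : ℕ} {τ : ℝ} (hG : Gadget (Wd t × Wd t) g τ D N B) :
    GirthGT (cgraph (Phi b B I)) g := by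
  refine girthGT_of_hom (projHom b B I) ?_ (girthGT_of_sparse hG.sparse)
  intro x y z hxy hxz hyz
  have hinl : ∀ a a', (Sum.inl a : ℕ ⊕ ℕ) = Sum.inl a' → a = a' := fun a a' h => Sum.inl.inj h
  have hinr : ∀ a a', (Sum.inr a : ℕ ⊕ ℕ) = Sum.inr a' → a = a' := fun a a' h => Sum.inr.inj h
  rcases x with x | x <;> rcases y with y | y <;> rcases z with z | z
  · exact hxy.elim
  · exact hxy.elim
  · exact hxz.elim
  · have h1 : (Nat.unpair y).2 = (Nat.unpair z).2 := hinr _ _ hyz
    obtain ⟨i, hi, c, xy, hxy', p, h2, h3⟩ := mem_edges (show (x, y) ∈ _ from hxy)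
    obtain ⟨i', hi', c', xy', hxy'', p', h2', h3'⟩ := mem_edges (show (x, z) ∈ _ from hxz)
    have h4 : xy.2 = xy'.2 := by
      rw [h3, h3', unpair_vtx, unpair_vtx] at h1
      exact h1
    have h5 : xy.1 = xy'.1 := by
      have := congrArg (fun a => (Nat.unpair a).2) (h2.symm.trans h2')
      simpa only [unpair_vtx] using this
    have h6 : xy = xy' := Prod.ext h5 h4
    subst h6
    obtain rfl := hG.disj c c' xy hxy' hxy''
    obtain ⟨rfl, rfl, _⟩ := vtx_inj hi hi' (h2.symm.trans h2')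
    rw [h3, h3']
  · have h1 : (Nat.unpair y).2 = (Nat.unpair z).2 := hinl _ _ hyz
    obtain ⟨i, hi, c, xy, hxy', p, h2, h3⟩ := mem_edges (show (y, x) ∈ _ from hxy)
    obtain ⟨i', hi', c', xy', hxy'', p', h2', h3'⟩ := mem_edges (show (z, x) ∈ _ from hxz)
    have h4 : xy.1 = xy'.1 := by
      rw [h2, h2', unpair_vtx, unpair_vtx] at h1
      exact h1
    have h5 : xy.2 = xy'.2 := by
      have := congrArg (fun a => (Nat.unpair a).2) (h3.symm.trans h3')
      simpa only [unpair_vtx] using this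
    have h6 : xy = xy' := Prod.ext h4 h5
    subst h6
    obtain rfl := hG.disj c c' xy hxy' hxy''
    obtain ⟨rfl, rfl, _⟩ := vtx_inj hi hi' (h3.symm.trans h3')
    rw [h2, h2']
  · exact hxz.elim
  · exact hxy.elim
  · exact hxy.elim

theorem tables_Phi {e : Edge} (he : e ∈ Phi b B I) : ∃ e' ∈ I, e.2 = e'.2 := by
  obtain ⟨i, _, c, xy, _, p, rfl⟩ := mem_Phi.1 he
  exact ⟨I[p], List.getElem_mem _, rfl⟩

end Pool.Agent.H697.Red
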