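import Pool.Agent.H697.Red.Struct

/-!
# The reduction: completeness and soundness
-/

namespace Pool.Agent.H697.Red

open Finset Pool.Agent.H697.Exp Pool.Agent.H697.UG Pool.Agent.H697.Forest

variable {b t : ℕ} {B : Wd t × Wd t → Finset (ℕ × ℕ)} {I : Game} {q : ℕ}

theorem numSat_eq (I : Game) (L M : ℕ → Fin q) :
    numSat I L M = (univ.filter fun p : Fin I.length => Sat L M I[p]).card := by
  unfold numSat
  rw [filter_ofFn]
  simp only [decide_eq_true_eq]

theorem complete_Phi (b : ℕ) {t : ℕ} (B : Wd t × Wd t → Finset (ℕ × ℕ)) (I : Game)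
    (L M : ℕ → Fin q) : ∃ L' M' : ℕ → Fin q,
      numSat (Phi b B I) L' M' = b * (∑ c, (B c).card) * numSat I L M := by
  refine ⟨fun n => L (Nat.unpair (Nat.unpair n).1).1, fun n => M (Nat.unpair (Nat.unpair n).1).1,
    ?_⟩
  unfold numSat
  rw [filter_Phi]
  have h1 : ∀ (i : ℕ) (c : Wd t × Wd t) (xy : ℕ × ℕ), (univ.filter fun p : Fin I.length =>
      decide (Sat (fun n => L (Nat.unpair (Nat.unpair n).1).1)
        (fun n => M (Nat.unpair (Nat.unpair n).1).1) (out b I i c xy (I[p], (p : ℕ)))) = true).card =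
      numSat I L M := by
    intro i c xy
    rw [numSat_eq]
    congr 1
    ext p
    simp only [mem_filter, mem_univ, true_and, decide_eq_true_eq]
    unfold Sat out
    dsimp only
    rw [unpair_vtx_key, unpair_vtx_key]
    rfl
  simp only [h1, sum_const, smul_eq_mul, card_range, ← sum_mul]
  unfold numSat
  ring

/-- The relation of an edge. -/
noncomputable def Rel (I : Game) (q : ℕ) (p : Fin I.length) (a a' : Fin q) : ℝ :=
  if I[p].2[(a : ℕ)]? = some (a' : ℕ) then 1 else 0

theorem Rel_nonneg (p : Fin I.length) (a a' : Fin q) : 0 ≤ Rel I q p a a' := by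
  unfold Rel; split_ifs <;> norm_num

theorem Rel_le (p : Fin I.length) (a a' : Fin q) : Rel I q p a a' ≤ 1 := by
  unfold Rel; split_ifs <;> norm_num

theorem Rel_sum (p : Fin I.length) (a : Fin q) : ∑ a', Rel I q p a a' ≤ 1 := by
  unfold Rel
  have h1 : (∑ a' : Fin q, if I[p].2[(a : ℕ)]? = some (a' : ℕ) then (1 : ℝ) else 0) =
      ((univ.filter fun a' : Fin q => I[p].2[(a : ℕ)]? = some (a' : ℕ)).card : ℝ) := by
    rw [card_filter]
    push_cast
    rfl
  rw [h1]
  have h2 : (univ.filter fun a' : Fin q => I[p].2[(a : ℕ)]? = some (a' : ℕ)).card ≤ 1 := by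
    rw [card_le_one]
    intro x hx y hy
    have h3 := (mem_filter.1 hx).2
    have h4 := (mem_filter.1 hy).2
    rw [h3] at h4
    exact Fin.ext (Option.some.inj h4)
  exact_mod_cast h2

/-- The fractional labelling of a cloud: the fraction of the copies of a point with label `a`. -/
noncomputable def frac (L : ℕ → Fin q) (N : ℕ) (m : ℕ → ℕ) (u : ℕ) (a : Fin q)
    (z : ZMod (m u) × ZMod (m u)) : ℝ :=
  (((range N).filter fun x => L (code u z x) = a).card : ℝ) / N

theorem frac_nonneg (L : ℕ → Fin q) (N : ℕ) (m : ℕ → ℕ) (u : ℕ) (a : Fin q)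
    (z : ZMod (m u) × ZMod (m u)) : 0 ≤ frac L N m u a z := by
  unfold frac; positivity

theorem frac_sum (L : ℕ → Fin q) {N : ℕ} (hN : 0 < N) (m : ℕ → ℕ) (u : ℕ)
    (z : ZMod (m u) × ZMod (m u)) : ∑ a, frac L N m u a z = 1 := by
  unfold frac
  rw [← sum_div, ← Nat.cast_sum, ← card_eq_sum_card_fiberwise (f := fun x => L (code u z x))
    (t := univ) (fun x _ => mem_univ _), card_range]
  exact div_self (by exact_mod_cast hN.ne')

theorem sound_local {g D N : ℕ} {τ : ℝ} (hG : Gadget (Wd t × Wd t) g τ D N B)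
    (L M : ℕ → Fin q) (i : ℕ) (c : Wd t × Wd t) (p : Fin I.length) :
    (((B c).filter fun xy => Sat L M (out b I i c xy (I[p], (p : ℕ)))).card : ℝ) ≤
      D * N * ∑ a, ∑ a', Rel I q p a a' *
        frac L N (side kL b I) (kL I[p]) a
          (act c.1 (pos (side kL b I (kL I[p])) (slot kL b I i p (kL I[p])))) *
        frac M N (side kR b I) (kR I[p]) a'
          (act c.2 (pos (side kR b I (kR I[p])) (slot kR b I i p (kR I[p])))) +
      q * τ * (D * N) := by
  have hN' : (N : ℝ) ≠ 0 := by exact_mod_cast hG.posN.ne'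
  have hN0 : (0 : ℝ) < N := by exact_mod_cast hG.posN
  have hD0 : (0 : ℝ) < D := by exact_mod_cast hG.posD
  set z := act c.1 (pos (side kL b I (kL I[p])) (slot kL b I i p (kL I[p]))) with hz
  set z' := act c.2 (pos (side kR b I (kR I[p])) (slot kR b I i p (kR I[p]))) with hz'
  set A : Fin q → Finset ℕ := fun a => (range N).filter fun x => L (code (kL I[p]) z x) = a with hA
  set A' : Fin q → Finset ℕ := fun a => (range N).filter fun x => M (code (kR I[p]) z' x) = a
    with hA'
  have h1 : (((B c).filter fun xy => Sat L M (out b I i c xy (I[p], (p : ℕ)))).card : ℝ) ≤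
      ∑ a, ∑ a', Rel I q p a a' * (((B c).filter fun xy => xy.1 ∈ A a ∧ xy.2 ∈ A' a').card : ℝ) := by
    rw [card_filter]
    push_cast
    have h2 : ∀ xy ∈ B c, (if Sat L M (out b I i c xy (I[p], (p : ℕ))) then (1 : ℝ) else 0) ≤
        ∑ a, ∑ a', Rel I q p a a' * (if xy.1 ∈ A a ∧ xy.2 ∈ A' a' then (1 : ℝ) else 0) := by
      intro xy hxy
      split_ifs with hs
      · have hmem : xy.1 ∈ A (L (code (kL I[p]) z xy.1)) ∧ xy.2 ∈ A' (M (code (kR I[p]) z' xy.2)) := by
          have := hG.lt c xy hxy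
          exact ⟨mem_filter.2 ⟨mem_range.2 this.1, rfl⟩, mem_filter.2 ⟨mem_range.2 this.2, rfl⟩⟩
        have hrel : Rel I q p (L (code (kL I[p]) z xy.1)) (M (code (kR I[p]) z' xy.2)) = 1 := by
          unfold Rel
          rw [if_pos]
          exact hs
        calc (1 : ℝ) = Rel I q p (L (code (kL I[p]) z xy.1)) (M (code (kR I[p]) z' xy.2)) *
              (if xy.1 ∈ A (L (code (kL I[p]) z xy.1)) ∧ xy.2 ∈ A' (M (code (kR I[p]) z' xy.2))
                then (1 : ℝ) else 0) := by rw [if_pos hmem, hrel, one_mul]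
          _ ≤ ∑ a', Rel I q p (L (code (kL I[p]) z xy.1)) a' *
              (if xy.1 ∈ A (L (code (kL I[p]) z xy.1)) ∧ xy.2 ∈ A' a' then (1 : ℝ) else 0) :=
              single_le_sum (f := fun a' => Rel I q p (L (code (kL I[p]) z xy.1)) a' *
              (if xy.1 ∈ A (L (code (kL I[p]) z xy.1)) ∧ xy.2 ∈ A' a' then (1 : ℝ) else 0))
              (fun a' _ => mul_nonneg (Rel_nonneg _ _ _) (by split_ifs <;> norm_num)) (mem_univ _)
          _ ≤ _ := single_le_sum (f := fun a => ∑ a', Rel I q p a a' *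
              (if xy.1 ∈ A a ∧ xy.2 ∈ A' a' then (1 : ℝ) else 0))
              (fun a _ => sum_nonneg fun a' _ => mul_nonneg (Rel_nonneg _ _ _)
                (by split_ifs <;> norm_num)) (mem_univ _)
      · exact sum_nonneg fun a _ => sum_nonneg fun a' _ => mul_nonneg (Rel_nonneg _ _ _)
          (by split_ifs <;> norm_num)
    refine (sum_le_sum h2).trans (le_of_eq ?_)
    rw [sum_comm]
    refine sum_congr rfl fun a _ => ?_
    rw [sum_comm]
    refine sum_congr rfl fun a' _ => ?_
    rw [← mul_sum, card_filter]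
    push_cast
    rfl
  refine h1.trans ?_
  have h3 : ∀ a a' : Fin q, Rel I q p a a' *
      (((B c).filter fun xy => xy.1 ∈ A a ∧ xy.2 ∈ A' a').card : ℝ) ≤
      D * N * (Rel I q p a a' * frac L N (side kL b I) (kL I[p]) a z *
        frac M N (side kR b I) (kR I[p]) a' z') + τ * (D * N) * Rel I q p a a' := by
    intro a a'
    have h4 := hG.disc c (A a) (filter_subset _ _) (A' a') (filter_subset _ _)
    refine (mul_le_mul_of_nonneg_left h4 (Rel_nonneg p a a')).trans (le_of_eq ?_)
    unfold frac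
    have h5 : ((range N).filter fun x => L (code (kL I[p]) z x) = a) = A a := rfl
    have h6 : ((range N).filter fun x => M (code (kR I[p]) z' x) = a') = A' a' := rfl
    rw [h5, h6]
    field_simp
  refine (sum_le_sum fun a _ => sum_le_sum fun a' _ => h3 a a').trans ?_
  simp only [sum_add_distrib, ← mul_sum]
  refine add_le_add_right ?_ _
  have h7 : ∑ a, ∑ a', Rel I q p a a' ≤ (q : ℝ) := by
    refine (sum_le_sum fun a _ => Rel_sum p a).trans (le_of_eq ?_)
    simp
  have h8 : 0 ≤ τ * (D * N) := by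
    by_contra hcon
    push Not at hcon
    have hτneg : τ < 0 := by
      by_contra h9
      push Not at h9
      have : 0 ≤ τ * (D * N) := by positivity
      linarith
    have h9 := hG.disc c ∅ (empty_subset _) ∅ (empty_subset _)
    simp only [notMem_empty, false_and, filter_false, card_empty, Nat.cast_zero, mul_zero,
      zero_div, zero_add] at h9
    nlinarith
  calc τ * (D * N) * ∑ a, ∑ a', Rel I q p a a' ≤ τ * (D * N) * q :=
        mul_le_mul_of_nonneg_left h7 h8
    _ = q * τ * (D * N) := by ring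

theorem sum_pair {ι : Type} [Fintype ι] (r : ℝ) (F G : ι → ℝ) :
    ∑ c : ι × ι, r * F c.1 * G c.2 = r * (∑ w, F w) * (∑ w, G w) := by
  rw [Fintype.sum_prod_type, mul_assoc, sum_mul_sum, mul_sum]
  refine sum_congr rfl fun x _ => ?_
  rw [mul_sum]
  exact sum_congr rfl fun y _ => by ring

theorem sum_avg_eq {n : ℕ} [NeZero n] (t : ℕ) (f : ZMod n × ZMod n → ℝ) (z) :
    ∑ w : Wd t, f (act w z) = 8 ^ t * avg t f z := by
  unfold avg
  rw [mul_div_cancel₀]
  positivity

theorem numSat_Phi (L M : ℕ → Fin q) : (numSat (Phi b B I) L M : ℝ) =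
    ∑ p : Fin I.length, ∑ i ∈ range b, ∑ c,
      (((B c).filter fun xy => Sat L M (out b I i c xy (I[p], (p : ℕ)))).card : ℝ) := by
  have h1 : numSat (Phi b B I) L M = ∑ p : Fin I.length, ∑ i ∈ range b, ∑ c,
      ((B c).filter fun xy => Sat L M (out b I i c xy (I[p], (p : ℕ)))).card := by
    unfold numSat
    rw [filter_Phi]
    simp only [card_filter, decide_eq_true_eq]
    refine (sum_congr rfl fun i _ => sum_congr rfl fun c _ => sum_comm).trans ?_
    refine (sum_congr rfl fun i _ => sum_comm).trans ?_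
    exact sum_comm
  rw [h1]
  push_cast
  rfl

theorem sound_Phi {g D N : ℕ} {τ : ℝ} (hG : Gadget (Wd t × Wd t) g τ D N B)
    (hq : 0 < q) (hb : 100 ≤ b) {δ : ℝ}
    (hδ : ∀ L M : ℕ → Fin q, (numSat I L M : ℝ) ≤ δ * I.length) (L M : ℕ → Fin q) :
    (numSat (Phi b B I) L M : ℝ) ≤ (D * N * (8 ^ t) ^ 2) * (b * I.length) *
      (δ + (73 / 80) ^ t * (q + 2) + q * τ) := by
  have hm : ∀ k : Edge → ℕ, ∑ u ∈ univ.image (fun p : Fin I.length => k I[p]),
      ((side k b I u : ℕ) : ℝ) ^ 2 ≤ 2 * (b * Fintype.card (Fin I.length)) := by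
    intro k
    have h1 := sum_side k I hb
    have h2 : (4 : ℝ) * ∑ u ∈ univ.image (fun p : Fin I.length => k I[p]),
      ((side k b I u : ℕ) : ℝ) ^ 2 ≤ 5 * (b * I.length) := by exact_mod_cast h1
    rw [Fintype.card_fin]
    have h3 : (0 : ℝ) ≤ b * I.length := by positivity
    linarith
  have hcore := core hq (fun p : Fin I.length => kL I[p]) (fun p : Fin I.length => kR I[p])
    (Rel I q) Rel_nonneg Rel_le Rel_sum (slots kL I b) (slots kR I b) (hm kL) (hm kR)
    (frac L N (side kL b I)) (frac_nonneg L N (side kL b I)) (frac_sum L hG.posN (side kL b I))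
    (frac M N (side kR b I)) (frac_nonneg M N (side kR b I)) (frac_sum M hG.posN (side kR b I))
    t (V := δ * I.length) (by
      intro L' M'
      refine le_trans (le_of_eq ?_) (hδ L' M')
      rw [numSat_eq, card_filter]
      push_cast
      rfl)
  rw [Fintype.card_fin] at hcore
  rw [numSat_Phi]
  refine (sum_le_sum fun p _ => sum_le_sum fun i _ => sum_le_sum fun c _ =>
    sound_local hG L M i c p).trans ?_
  have h1 : ∀ (p : Fin I.length) (i : ℕ), ∑ c : Wd t × Wd t, (D * N * ∑ a, ∑ a',
      Rel I q p a a' * frac L N (side kL b I) (kL I[p]) a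
          (act c.1 (pos (side kL b I (kL I[p])) (slot kL b I i p (kL I[p])))) *
        frac M N (side kR b I) (kR I[p]) a'
          (act c.2 (pos (side kR b I (kR I[p])) (slot kR b I i p (kR I[p])))) +
      q * τ * (D * N)) = D * N * (8 ^ t) ^ 2 * (∑ a, ∑ a', Rel I q p a a' *
        avg t (frac L N (side kL b I) (kL I[p]) a)
          (pos (side kL b I (kL I[p])) (slot kL b I i p (kL I[p]))) *
        avg t (frac M N (side kR b I) (kR I[p]) a')
          (pos (side kR b I (kR I[p])) (slot kR b I i p (kR I[p]))) + q * τ) := by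
    intro p i
    rw [sum_add_distrib, ← mul_sum, sum_const, card_univ, Fintype.card_prod, Fintype.card_fun,
      Fintype.card_fin, Fintype.card_fin, nsmul_eq_mul]
    have h2 : ∑ c : Wd t × Wd t, ∑ a, ∑ a',
        Rel I q p a a' * frac L N (side kL b I) (kL I[p]) a
          (act c.1 (pos (side kL b I (kL I[p])) (slot kL b I i p (kL I[p])))) *
        frac M N (side kR b I) (kR I[p]) a'
          (act c.2 (pos (side kR b I (kR I[p])) (slot kR b I i p (kR I[p])))) =
        (8 ^ t) ^ 2 * ∑ a, ∑ a', Rel I q p a a' *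
        avg t (frac L N (side kL b I) (kL I[p]) a)
          (pos (side kL b I (kL I[p])) (slot kL b I i p (kL I[p]))) *
        avg t (frac M N (side kR b I) (kR I[p]) a')
          (pos (side kR b I (kR I[p])) (slot kR b I i p (kR I[p]))) := by
      rw [sum_comm, mul_sum]
      refine sum_congr rfl fun a _ => ?_
      rw [sum_comm, mul_sum]
      refine sum_congr rfl fun a' _ => ?_
      rw [sum_pair (Rel I q p a a') (fun w => frac L N (side kL b I) (kL I[p]) a
          (act w (pos (side kL b I (kL I[p])) (slot kL b I i p (kL I[p])))))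
        (fun w => frac M N (side kR b I) (kR I[p]) a'
          (act w (pos (side kR b I (kR I[p])) (slot kR b I i p (kR I[p]))))),
        sum_avg_eq, sum_avg_eq]
      ring
    rw [h2]
    push_cast
    ring
  simp only [h1]
  simp only [← mul_sum, sum_add_distrib, sum_const, card_univ, Fintype.card_fin, card_range,
    nsmul_eq_mul]
  have h3 : (0 : ℝ) ≤ D * N * (8 ^ t) ^ 2 := by positivity
  have h4 := mul_le_mul_of_nonneg_left hcore h3
  refine le_trans (le_of_eq ?_) ((add_le_add_left h4
    (D * N * (8 ^ t) ^ 2 * (I.length * (b * (q * τ))))).trans (le_of_eq ?_))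
  · ring
  · ring

end Pool.Agent.H697.Red
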